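import Mathlib
import Pool.Agent.H577Z.MonCurve
import Pool.Agent.Helper947.Hil.Final

set_option autoImplicit false

open CategoryTheory AlgebraicGeometry MvPolynomial
open Pool.Agent.Helper947.Crv

namespace Pool.Agent.Results.MP_f49c72_ag.ProjectiveSameMon

/-- An ideal of the polynomial ring in four variables which is generated by monomials. -/
def IsMonomialIdeal {K : Type} [Field K] (I : Ideal (Pl K)) : Prop :=
  ∃ S : Set (Fin 4 →₀ ℕ), I = Ideal.span ((fun s => monomial s (1 : K)) '' S)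

/-- `Mon(Z)`: the set of saturated monomial ideals with Hilbert polynomial `d t + 1 - g` whose
point on the Hilbert scheme over `K` lies on `Z`. -/
def Mon {d g : ℤ} (𝓗 : HilbertScheme d g) {K : Type} [Field K] (Z : Set (bc 𝓗 K)) :
    Set (Ideal (Pl K)) :=
  {I | IsMonomialIdeal I ∧ ∃ x : HilbPt d g K, x.I = I ∧ ptOf 𝓗 x ∈ Z}

/-- Over every algebraically closed field of characteristic zero, the Hilbert scheme of closed
subschemes of projective 3-space with Hilbert polynomial `32 t + 1068` has two distinct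
irreducible components which contain the same saturated monomial ideals. -/
theorem result (K : Type) [Field K] [IsAlgClosed K] [CharZero K] :
    Nonempty (HilbertScheme 32 (-1067)) ∧
    ∀ 𝓗 : HilbertScheme 32 (-1067),
      ∃ Z₁ ∈ irreducibleComponents (bc 𝓗 K), ∃ Z₂ ∈ irreducibleComponents (bc 𝓗 K),
        Z₁ ≠ Z₂ ∧ Mon 𝓗 Z₁ = Mon 𝓗 Z₂ := by
  refine ⟨?_, fun 𝓗 => ?_⟩
  · have h := Pool.Agent.Helper947.Hil.hilbert_scheme_exists 32 1068
    norm_num at h
    exact h
  · obtain ⟨Z₁, h1, Z₂, h2, hne, h⟩ := Pool.Agent.H577Z.MonCurve.main K 𝓗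
    refine ⟨Z₁, h1, Z₂, h2, hne, ?_⟩
    ext I
    constructor
    · rintro ⟨⟨S, hS⟩, x, hx, hZ⟩
      exact ⟨⟨S, hS⟩, x, hx, (h x S (hx.trans hS)).1 hZ⟩
    · rintro ⟨⟨S, hS⟩, x, hx, hZ⟩
      exact ⟨⟨S, hS⟩, x, hx, (h x S (hx.trans hS)).2 hZ⟩

end Pool.Agent.Results.MP_f49c72_ag.ProjectiveSameMon
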